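import Pool.Agent.H83.CUBE.J_AREL
import Pool.Agent.H84.CUBE.J_FACEP

/-!
# MP_47888e_al, block CONT/JJ: module AIOTA, the coboundary of the face for the functional at infinity
-/

set_option autoImplicit false

open Polynomial

namespace Pool.CUBE.J_AIOTA

open Pool.CM Pool.H93.Cube Pool.CUBE.Corner Pool.CUBE.J83 Pool.CUBE.J_FACEP

section

variable {n : ℕ} {E : Type} [Field E]

/-- the derivative in the direction `z_0` -/
noncomputable abbrev d0 (n : ℕ) (E : Type) [Field E] :
    Derivation ℤ (MvPolynomial (Fin (n + 2)) E) (MvPolynomial (Fin (n + 2)) E) :=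
  (MvPolynomial.pderiv (R := E) (0 : Fin (n + 2))).restrictScalars ℤ

theorem d0_pow_coeff (G : Polynomial (MvPolynomial (Fin (n + 2)) E)) (k t : ℕ) :
    MvPolynomial.pderiv 0 ((G ^ (k + 1)).coeff t) =
      ((k + 1 : ℕ) : MvPolynomial (Fin (n + 2)) E) *
      ∑ a ∈ Finset.range (t + 1), MvPolynomial.pderiv 0 (G.coeff a) * (G ^ k).coeff (t - a) :=
  d_pow_coeff (d0 n E) G k t

theorem d0_SigP : MvPolynomial.pderiv 0 (SigP (n + 1) E) = 1 := by
  rw [SigP, map_sum, Finset.sum_eq_single 0]
  · rw [MvPolynomial.pderiv_X_self]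
  · intro j _ hj
    exact MvPolynomial.pderiv_X_of_ne hj
  · intro h; exact absurd (Finset.mem_univ _) h

theorem Io_d0_Sig [CharZero E] (h : IOSStmt) (D : ℕ) (g : MvPolynomial (Fin (n + 2)) E) :
    Io (MvPolynomial.pderiv 0 (SigP (n + 1) E ^ D) * g) = (D : E) * Io g := by
  rw [Derivation.leibniz_pow, d0_SigP, smul_eq_mul, nsmul_eq_mul, mul_one, mul_assoc,
    Io_natCast_mul, Io_Sig_pow h]

theorem fc_rename (g : MvPolynomial (Fin (n + 1)) E) :
    fc n E (MvPolynomial.rename Fin.succ g) = g := by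
  unfold fc
  rw [MvPolynomial.aeval_rename]
  have h1 : ((Fin.cases 0 MvPolynomial.X : Fin (n + 2) → MvPolynomial (Fin (n + 1)) E) ∘
      Fin.succ) = MvPolynomial.X := by
    funext i
    simp
  rw [h1, MvPolynomial.aeval_X_left, AlgHom.id_apply]

theorem d0_rename (g : MvPolynomial (Fin (n + 1)) E) :
    MvPolynomial.pderiv 0 (MvPolynomial.rename Fin.succ g) = 0 := by
  induction g using MvPolynomial.induction_on with
  | C a => rw [MvPolynomial.rename_C, MvPolynomial.pderiv_C]
  | add p q hp hq => rw [map_add, map_add, hp, hq, add_zero]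
  | mul_X p i hp =>
    rw [map_mul, Derivation.leibniz, hp, MvPolynomial.rename_X,
      MvPolynomial.pderiv_X_of_ne (Fin.succ_ne_zero i), smul_zero, smul_zero, add_zero]

theorem iof_fc [CharZero E] (h2 : IOFStmt) (h : MvPolynomial (Fin (n + 2)) E) (d : ℕ)
    (hd : h.IsHomogeneous d) :
    Io (MvPolynomial.pderiv 0 h) = ((d + n + 1 : ℕ) : E) * Io h - Io (fc n E h) :=
  h2 n E h d hd

variable {K : Corner (n + 1) E} {K0 : Corner n E}

theorem fc_GP (h : IsFace K K0) (k t : ℕ) :
    fc n E ((K.GP ^ k).coeff t) = (K0.GP ^ k).coeff t := by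
  have h1 : K0.GP = K.GP.map (fc n E).toRingHom := by
    ext1 a
    rw [Polynomial.coeff_map, GP_coeff, GP_coeff, G_eq h]
    rfl
  rw [h1, ← Polynomial.map_pow, Polynomial.coeff_map]
  rfl

end

end Pool.CUBE.J_AIOTA

namespace Pool.CUBE

open Pool.CM Pool.H93.Cube Pool.CUBE.Corner Pool.CUBE.J83 Pool.CUBE.J_FACEP Pool.CUBE.J_AIOTA

theorem aiota_thm (h : IOSStmt) (h2 : IOFStmt) : Corner.AIOTAStmt := by
  intro n E _ _ K K0 hF L l t g N hL hg hD
  by_cases hC : (L : ℤ) + l ≤ N + 1
  · obtain ⟨L', rfl⟩ : ∃ L', L = L' + 1 := ⟨L - 1, by omega⟩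
    obtain ⟨k, rfl⟩ : ∃ k : ℕ, N = ((L' + l + k : ℕ) : ℤ) :=
      ⟨(N - L' - l).toNat, by push_cast at hC ⊢; omega⟩
    have hgr : (MvPolynomial.rename Fin.succ g : MvPolynomial (Fin (n + 2)) E).IsHomogeneous
        (K.D * (L' + 1) - (n + 1)) := hg.rename_isHomogeneous
    have hfg : fc n E (MvPolynomial.rename Fin.succ g) = g := fc_rename g
    have hdg : MvPolynomial.pderiv 0 (MvPolynomial.rename Fin.succ g :
      MvPolynomial (Fin (n + 2)) E) = 0 := d0_rename g
    set gg : MvPolynomial (Fin (n + 2)) E := MvPolynomial.rename Fin.succ g with hgg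
    set F := fer (n + 1) K.D E ^ l with hFd
    set Q := (K.GP ^ k).coeff t with hQ
    set c : E := (-1) ^ l * (((L' + l + k).factorial : E) /
      ((l.factorial : E) * (k.factorial : E))) with hc
    have hkf : ∀ m : ℕ, ((m.factorial : ℕ) : E) ≠ 0 := fun m =>
      Nat.cast_ne_zero.2 (Nat.factorial_ne_zero m)
    -- the first term
    have hT1 : K.Ainf (L' + 1 + 1) (MvPolynomial.pderiv 0 (SigP (n + 1) E ^ K.D) * gg) l t
        (((L' + l + k : ℕ) : ℤ) + 1) =
        c * (((L' + l + k + 1 : ℕ) : E) * ((K.D : E) * Io (gg * F * Q))) := by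
      have e1 : ((L' + l + k : ℕ) : ℤ) + 1 = ((L' + 1 + l + k : ℕ) : ℤ) := by push_cast; ring
      have e2 : L' + 1 + l + k = L' + l + k + 1 := by ring
      have e3 : MvPolynomial.pderiv 0 (SigP (n + 1) E ^ K.D) * gg * F * Q =
          MvPolynomial.pderiv 0 (SigP (n + 1) E ^ K.D) * (gg * F * Q) := by
        rw [mul_assoc, mul_assoc, mul_assoc]
      rw [e1, Ainf_nat, ← hFd, ← hQ, e3, Io_d0_Sig h, e2, Nat.factorial_succ, hc, Nat.cast_mul]
      ring
    -- the second term
    have hT2 : ∑ a ∈ Finset.range (t + 1), K.Ainf (L' + 1 + 1)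
        (MvPolynomial.pderiv 0 (K.G a) * gg) l (t - a)
        ((L' + l + k : ℕ) : ℤ) = c * Io (gg * F * MvPolynomial.pderiv 0 Q) := by
      rcases Nat.eq_zero_or_pos k with hk | hk
      · have h0 : ∀ a ∈ Finset.range (t + 1), K.Ainf (L' + 1 + 1)
            (MvPolynomial.pderiv 0 (K.G a) * gg) l (t - a)
            ((L' + l + k : ℕ) : ℤ) = 0 := by
          intro a _
          apply Ainf_zero
          push_cast
          omega
        rw [Finset.sum_eq_zero h0, hQ, hk, pow_zero, Polynomial.coeff_one]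
        split_ifs
        · rw [Derivation.map_one_eq_zero, mul_zero, map_zero, mul_zero]
        · rw [map_zero, mul_zero, map_zero, mul_zero]
      · obtain ⟨k', rfl⟩ : ∃ k', k = k' + 1 := ⟨k - 1, by omega⟩
        have h0 : ∀ a ∈ Finset.range (t + 1), K.Ainf (L' + 1 + 1)
            (MvPolynomial.pderiv 0 (K.G a) * gg) l (t - a)
            ((L' + l + (k' + 1) : ℕ) : ℤ) = c * (((k' + 1 : ℕ) : E) *
              Io (gg * F * (MvPolynomial.pderiv 0 (K.G a) * (K.GP ^ k').coeff (t - a)))) := by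
          intro a _
          have e1 : L' + l + (k' + 1) = L' + 1 + l + k' := by ring
          have e3 : MvPolynomial.pderiv 0 (K.G a) * gg * fer (n + 1) K.D E ^ l *
              (K.GP ^ k').coeff (t - a) =
            gg * F * (MvPolynomial.pderiv 0 (K.G a) * (K.GP ^ k').coeff (t - a)) := by
            rw [hFd]; ring
          rw [hc, e1, Ainf_nat, e3, Nat.factorial_succ k']
          have h5 : ((k' + 1 : ℕ) : E) ≠ 0 := Nat.cast_ne_zero.2 (by omega)
          have h6 := hkf l
          have h7 := hkf k'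
          rw [Nat.cast_mul]
          field_simp
        rw [Finset.sum_congr rfl h0, ← Finset.mul_sum, ← Finset.mul_sum, ← map_sum,
          ← Finset.mul_sum]
        have h2 : MvPolynomial.pderiv 0 Q = ((k' + 1 : ℕ) : MvPolynomial (Fin (n + 2)) E) *
            ∑ a ∈ Finset.range (t + 1), MvPolynomial.pderiv 0 (K.G a) *
              (K.GP ^ k').coeff (t - a) := by
          rw [hQ, d0_pow_coeff]
          simp only [GP_coeff]
        rw [h2, mul_left_comm (gg * F), Io_natCast_mul]
    -- the third term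
    have hT3 : (if l = 0 then 0 else K.Ainf (L' + 1 + 1)
        (MvPolynomial.pderiv 0 (fer (n + 1) K.D E) * gg) (l - 1) t
        ((L' + l + k : ℕ) : ℤ)) = - (c * Io (gg * MvPolynomial.pderiv 0 F * Q)) := by
      rcases Nat.eq_zero_or_pos l with hl | hl
      · rw [if_pos hl, hFd, hl, pow_zero, Derivation.map_one_eq_zero, mul_zero, zero_mul, map_zero,
          mul_zero, neg_zero]
      · obtain ⟨l', rfl⟩ : ∃ l', l = l' + 1 := ⟨l - 1, by omega⟩
        have e1 : L' + (l' + 1) + k = L' + 1 + l' + k := by ring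
        have e3 : gg * MvPolynomial.pderiv 0 F * Q =
          ((l' + 1 : ℕ) : MvPolynomial (Fin (n + 2)) E) *
            (MvPolynomial.pderiv 0 (fer (n + 1) K.D E) * gg * fer (n + 1) K.D E ^ l' * Q) := by
          rw [hFd, Derivation.leibniz_pow, Nat.add_sub_cancel, smul_eq_mul, nsmul_eq_mul]
          ring
        rw [if_neg (by omega), Nat.add_sub_cancel, e3, Io_natCast_mul, hc,
          e1, Ainf_nat, ← hQ, Nat.factorial_succ l', pow_succ]
        have h5 : ((l' + 1 : ℕ) : E) ≠ 0 := Nat.cast_ne_zero.2 (by omega)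
        have h6 := hkf l'
        have h7 := hkf k
        rw [Nat.cast_mul]
        field_simp
    have hHom : (gg * F * Q).IsHomogeneous (K.D * (L' + 1) - (n + 1) + K.D * l + K.D * k) :=
      (hgr.mul (by simpa [hFd] using (fer_hom (n := n + 1) (E := E) K.D).pow l)).mul
        (GPpow_hom K k t)
    have hE : Io (MvPolynomial.pderiv 0 (gg * F * Q)) =
        ((K.D * (L' + 1) - (n + 1) + K.D * l + K.D * k + n + 1 : ℕ) : E) * Io (gg * F * Q) -
          Io (fc n E (gg * F * Q)) := iof_fc h2 (gg * F * Q) _ hHom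
    have hd : K.D * (L' + 1) - (n + 1) + K.D * l + K.D * k + n + 1 =
        K.D * (L' + l + k + 1) := by
      have : K.D * (L' + 1) - (n + 1) + (n + 1) = K.D * (L' + 1) := Nat.sub_add_cancel hD
      calc _ = (K.D * (L' + 1) - (n + 1) + (n + 1)) + K.D * l + K.D * k := by ring
        _ = _ := by rw [this]; ring
    have hff : fc n E (fer (n + 1) K.D E) = fer n K.D E := fc_fer (n := n) (A := E) K.D K.hD
    have hface : fc n E (gg * F * Q) = g * fer n K.D E ^ l * (K0.GP ^ k).coeff t := by
      rw [map_mul, map_mul, hfg, hQ, fc_GP hF, hFd, map_pow, hff]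
    rw [hface, hd, Derivation.leibniz, Derivation.leibniz, hdg, smul_zero, add_zero] at hE
    rw [hT1, hT2, hT3, Ainf_nat, ← hc, hF.1]
    have hE' : Io (g * fer n K.D E ^ l * (K0.GP ^ k).coeff t) =
        ((K.D * (L' + l + k + 1) : ℕ) : E) * Io (gg * F * Q) -
          (Io (gg * F * MvPolynomial.pderiv 0 Q) + Io (gg * MvPolynomial.pderiv 0 F * Q)) := by
      have h9 : gg * F * MvPolynomial.pderiv 0 Q + gg * MvPolynomial.pderiv 0 F * Q =
        (gg * F) • MvPolynomial.pderiv 0 Q + Q • gg • MvPolynomial.pderiv 0 F := by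
        simp only [smul_eq_mul]
        ring
      rw [← map_add, h9, hE, sub_sub_cancel]
    rw [hE']
    push_cast
    ring
  · rw [Ainf_zero K0 _ _ hC, Ainf_zero K _ _ (by push_cast; omega), Finset.sum_eq_zero]
    · split_ifs with hl
      · ring
      · rw [Ainf_zero K _ _ (by push_cast [Nat.cast_sub (Nat.one_le_iff_ne_zero.2 hl)]; omega)]
        ring
    · intro k _
      apply Ainf_zero
      push_cast
      omega

end Pool.CUBE
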